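import Pool.Agent.Q211.TP.Ppp2
import Pool.Agent.Q211.TP.Prt

/-!
# A model of ZF with two P-spaces whose product is not a P-space

The model is a symmetric extension of permutation type. The atoms are the pairs in `ℕ × ℚ` (every
atom is represented by an infinite set of mutually generic Cohen reals), the group consists of the
sequences of order automorphisms of the blocks `{n} × ℚ`, and the supports are finite. Both spaces
have the atoms and one further point `∞` as points, and the atoms are isolated. A neighbourhood of
`∞` in the first space contains a final segment of every block, and a neighbourhood of `∞` in the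
second space contains an initial segment of every block. If the open sets `A i` contain `∞`, then
their intersection with a block contains all atoms beyond the atoms of a support of the sequence,
so both spaces are `P`-spaces. In the product, let `R n` be the complement of the set of the pairs
`(s, t)` of atoms of the block `n` with `s ≤ t`. These sets are open, but their intersection does
not contain a product `U × V` of neighbourhoods of `∞`: both `U` and `V` contain every block
without atoms of their supports.
-/

set_option autoImplicit false

namespace Pool.Agent.Results.MP_e864e9_lc.ProductNotP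

open Pool.Agent.W868 Pool.Agent.W868.PName Pool.Agent.Q211.SY Pool.Agent.Q211.FS
open Pool.Agent.Q211.TP

/-- There is a countable transitive model of ZF with two `P`-spaces whose product is not a
`P`-space. -/
theorem result : ∃ M : Set ZFSet.{0}, M.Countable ∧ IsZF M ∧
    ∃ X ∈ M, ∃ τ ∈ M, ∃ Y ∈ M, ∃ σ ∈ M, ∃ T ∈ M, IsTopIn M X τ ∧ IsTopIn M Y σ ∧
      IsProdTop M X τ Y σ T ∧ IsPSpace M X τ ∧ IsPSpace M Y σ ∧
      ¬ IsPSpace M (ZFSet.prod X Y) T := by
  obtain ⟨M, pt, X, K, R, BL, h⟩ := exists_chf ℚ
  obtain ⟨τ, hτM, hτ⟩ := h.exists_ft_top
  obtain ⟨σ, hσM, hσ⟩ := h.exists_ft_bot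
  obtain ⟨T, hTM, hT⟩ := exists_prodTop h.zf h.X1_mem hτM h.X1_mem hσM
  exact ⟨M, h.cnt, h.zf, _, h.X1_mem, τ, hτM, _, h.X1_mem, σ, hσM, T, hTM, h.ft_top hτ,
    h.ft_top hσ, hT, h.ft_P hτ fun f hf n => h.homog_top f hf n,
    h.ft_P hσ fun f hf n => h.homog_bot f hf n, h.prod_not_P hτM hσM hτ hσ hT⟩

end Pool.Agent.Results.MP_e864e9_lc.ProductNotP
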